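import Pool.Agent.MP_670f9a_nt.H13.Spec2

/-! Integrability of `log |H|` on the torus and exchange of the two means. -/

namespace Pool.Agent.MP_670f9a_nt.H30

open Polynomial Real MeasureTheory Set Pool.Agent.MP_670f9a_nt.NP

/-- Lebesgue measure on one period. -/
noncomputable abbrev mu : Measure ℝ := volume.restrict (Ioc 0 (2 * π))

theorem avg_eq {E : Type} [NormedAddCommGroup E] [NormedSpace ℝ E] (f : ℂ → E) :
    circleAverage f 0 1 = (2 * π)⁻¹ • ∫ θ, f (circleMap 0 1 θ) ∂mu := by
  rw [circleAverage_def, intervalIntegral.integral_of_le two_pi_pos.le]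

theorem int_iff {E : Type} [NormedAddCommGroup E] (f : ℂ → E) :
    CircleIntegrable f 0 1 ↔ Integrable (fun θ => f (circleMap 0 1 θ)) mu := by
  rw [circleIntegrable_def, intervalIntegrable_iff_integrableOn_Ioc_of_le two_pi_pos.le]
  rfl

theorem fub {E : Type} [NormedAddCommGroup E] [NormedSpace ℝ E] (F : ℂ → ℂ → E)
    (hF : Integrable (fun p : ℝ × ℝ => F (circleMap 0 1 p.1) (circleMap 0 1 p.2)) (mu.prod mu)) :
    CircleIntegrable (fun u => circleAverage (fun v => F u v) 0 1) 0 1 ∧
    CircleIntegrable (fun v => circleAverage (fun u => F u v) 0 1) 0 1 ∧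
    circleAverage (fun v => circleAverage (fun u => F u v) 0 1) 0 1 =
      circleAverage (fun u => circleAverage (fun v => F u v) 0 1) 0 1 := by
  refine ⟨?_, ?_, ?_⟩
  · rw [int_iff]
    simp only [avg_eq]
    exact hF.integral_prod_left.smul ((2 * π)⁻¹ : ℝ)
  · rw [int_iff]
    simp only [avg_eq]
    exact hF.integral_prod_right.smul ((2 * π)⁻¹ : ℝ)
  · simp only [avg_eq, integral_smul]
    rw [integral_integral_swap (f := fun a b : ℝ => F (circleMap 0 1 a) (circleMap 0 1 b)) hF]

theorem cont (H : ℂ[X][X]) : Continuous fun p : ℂ × ℂ => H.evalEval p.1 p.2 := by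
  induction H using Polynomial.induction_on' with
  | add p q hp hq =>
    simp only [evalEval_add]
    exact hp.add hq
  | monomial n a =>
    simp only [← C_mul_X_pow_eq_monomial, evalEval_mul, evalEval_pow, evalEval_C, evalEval_X]
    exact (a.continuous.comp continuous_fst).mul (continuous_snd.pow n)

theorem bdd (H : ℂ[X][X]) : ∃ B : ℝ, 0 ≤ B ∧ ∀ a b : ℝ,
    log ‖H.evalEval (circleMap 0 1 a) (circleMap 0 1 b)‖ ≤ B := by
  obtain ⟨B, hB⟩ := ((isCompact_sphere (0 : ℂ) 1).prod
    (isCompact_sphere (0 : ℂ) 1)).exists_bound_of_continuousOn (cont H).continuousOn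
  refine ⟨max B 0, le_max_right _ _, fun a b => ?_⟩
  have h := hB (circleMap 0 1 a, circleMap 0 1 b) ⟨by simp, by simp⟩
  exact (log_le_self (norm_nonneg _)).trans (h.trans (le_max_left _ _))

theorem slice (H : ℂ[X][X]) (u : ℂ) :
    Integrable (fun b : ℝ => log ‖H.evalEval u (circleMap 0 1 b)‖) mu := by
  have h := (H.map (evalRingHom u)).intervalIntegrable_mahlerMeasure
  rw [intervalIntegrable_iff_integrableOn_Ioc_of_le two_pi_pos.le] at h
  simp only [map_evalRingHom_eval] at h
  exact h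

theorem lower (H : ℂ[X][X]) (u : ℂ) (hu : H.leadingCoeff.eval u ≠ 0) :
    2 * π * log ‖H.leadingCoeff.eval u‖ ≤ ∫ b, log ‖H.evalEval u (circleMap 0 1 b)‖ ∂mu := by
  have h1 : (H.map (evalRingHom u)).leadingCoeff = H.leadingCoeff.eval u :=
    leadingCoeff_map_of_leadingCoeff_ne_zero _ hu
  have h2 := (H.map (evalRingHom u)).leadingCoeff_le_mahlerMeasure
  rw [h1] at h2
  have h3 := log_le_log (norm_pos_iff.2 hu) h2
  rw [← logMahlerMeasure_eq_log_MahlerMeasure, logMahlerMeasure_def, avg_eq] at h3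
  simp only [map_evalRingHom_eval, smul_eq_mul] at h3
  rwa [inv_mul_eq_div, le_div_iff₀ two_pi_pos, mul_comm] at h3

theorem integ (H : ℂ[X][X]) (hH : H ≠ 0) : Integrable
    (fun p : ℝ × ℝ => log ‖H.evalEval (circleMap 0 1 p.1) (circleMap 0 1 p.2)‖) (mu.prod mu) := by
  have hc : Continuous fun p : ℝ × ℝ => H.evalEval (circleMap 0 1 p.1) (circleMap 0 1 p.2) :=
    (cont H).comp (((continuous_circleMap 0 1).comp continuous_fst).prodMk
      ((continuous_circleMap 0 1).comp continuous_snd))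
  have hm : AEStronglyMeasurable
      (fun p : ℝ × ℝ => log ‖H.evalEval (circleMap 0 1 p.1) (circleMap 0 1 p.2)‖) (mu.prod mu) :=
    (measurable_log.comp hc.norm.measurable).aestronglyMeasurable
  obtain ⟨B, hB0, hB⟩ := bdd H
  rw [integrable_prod_iff hm]
  refine ⟨ae_of_all _ fun a => slice H (circleMap 0 1 a), ?_⟩
  have hf : Integrable (fun a : ℝ => log ‖H.leadingCoeff.eval (circleMap 0 1 a)‖) mu := by
    have h := H.leadingCoeff.intervalIntegrable_mahlerMeasure
    rwa [intervalIntegrable_iff_integrableOn_Ioc_of_le two_pi_pos.le] at h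
  have hg : Integrable (fun a : ℝ => (∫ _b, 2 * B ∂mu) -
      2 * π * log ‖H.leadingCoeff.eval (circleMap 0 1 a)‖) mu :=
    (integrable_const _).sub (hf.const_mul _)
  refine hg.mono' hm.norm.integral_prod_right' ?_
  have hz : ∀ᵐ a ∂mu, H.leadingCoeff.eval (circleMap 0 1 a) ≠ 0 := by
    refine ae_restrict_of_ae ?_
    have h1 : (circleMap 0 1 ⁻¹' {z | H.leadingCoeff.IsRoot z}).Countable :=
      (finite_setOfPred_isRoot (leadingCoeff_ne_zero.2 hH)).countable.preimage_circleMap 0
        one_ne_zero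
    filter_upwards [h1.ae_notMem volume] with a ha using ha
  filter_upwards [hz] with a ha
  rw [norm_of_nonneg (integral_nonneg fun _ => norm_nonneg _)]
  have h1 : ∫ b, ‖log ‖H.evalEval (circleMap 0 1 a) (circleMap 0 1 b)‖‖ ∂mu ≤
      ∫ b, (2 * B - log ‖H.evalEval (circleMap 0 1 a) (circleMap 0 1 b)‖) ∂mu := by
    refine integral_mono (slice H _).norm ((integrable_const _).sub (slice H _)) fun b => ?_
    have h := hB a b
    simp only [norm_eq_abs]
    exact abs_le.2 ⟨by linarith, by linarith⟩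
  rw [integral_sub (integrable_const _) (slice H _)] at h1
  have h2 := lower H _ ha
  linarith

theorem sFub : SFub := by
  intro H hH
  have h1 := fub (fun u v => log ‖H.evalEval u v‖) (integ H hH)
  refine ⟨h1.1, h1.2.1, h1.2.2, fun r => ?_⟩
  have h2 : Integrable (fun p : ℝ × ℝ =>
      ((log ‖H.evalEval (circleMap 0 1 p.1) (circleMap 0 1 p.2)‖ : ℝ) : ℂ) *
        circleMap 0 1 p.1 ^ r) (mu.prod mu) := by
    refine (integ H hH).ofReal.mul_bdd (c := 1)
      (((continuous_circleMap 0 1).comp continuous_fst).pow r).aestronglyMeasurable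
      (ae_of_all _ fun p => ?_)
    simp
  have h3 := fub (fun u v => ((log ‖H.evalEval u v‖ : ℝ) : ℂ) * u ^ r) h2
  refine ⟨h3.2.1, h3.2.2.trans ?_⟩
  have h4 : (fun u : ℂ => circleAverage (fun v => ((log ‖H.evalEval u v‖ : ℝ) : ℂ) * u ^ r) 0 1) =
      fun u => ((Phi H u : ℝ) : ℂ) * u ^ r := by
    funext u
    rw [Phi, avg_eq, avg_eq, integral_mul_const, integral_complex_ofReal]
    simp [mul_assoc]
  rw [h4]
  rfl

end Pool.Agent.MP_670f9a_nt.H30
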